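import Pool.Agent.Y727.PT.Stm

/-! # Pate's inequality: the Fischer inner product is sesquilinear -/

set_option autoImplicit false

namespace Pool.Agent.Y727.PT

open MvPolynomial

variable {m : ℕ}

/-- the weight `α!` -/
noncomputable def wt (α : Fin m →₀ ℕ) : ℂ := ((∏ j, (α j).factorial : ℕ) : ℂ)

theorem ip_eq {P Q : MvPolynomial (Fin m) ℂ} {S : Finset (Fin m →₀ ℕ)} (h : P.support ⊆ S) :
    ip P Q = ∑ α ∈ S, wt α * coeff α P * (starRingEnd ℂ) (coeff α Q) := by
  unfold ip wt
  refine Finset.sum_subset h fun α _ hα => ?_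
  rw [notMem_support_iff.mp hα]
  simp

theorem ip_add_left (P P' Q : MvPolynomial (Fin m) ℂ) : ip (P + P') Q = ip P Q + ip P' Q := by
  classical
  rw [ip_eq (S := P.support ∪ P'.support) support_add,
    ip_eq (S := P.support ∪ P'.support) (P := P) Finset.subset_union_left,
    ip_eq (S := P.support ∪ P'.support) (P := P') Finset.subset_union_right,
    ← Finset.sum_add_distrib]
  refine Finset.sum_congr rfl fun α _ => ?_
  rw [coeff_add]
  ring

theorem ip_C_left (c : ℂ) (P Q : MvPolynomial (Fin m) ℂ) : ip (C c * P) Q = c * ip P Q := by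
  classical
  have h : (C c * P).support ⊆ P.support := by
    intro α hα
    rw [mem_support_iff, coeff_C_mul] at hα
    rw [mem_support_iff]
    exact fun h0 => hα (by rw [h0, mul_zero])
  rw [ip_eq h, ip_eq (P := P) subset_rfl, Finset.mul_sum]
  refine Finset.sum_congr rfl fun α _ => ?_
  rw [coeff_C_mul]
  ring

theorem ip_conj (P Q : MvPolynomial (Fin m) ℂ) : (starRingEnd ℂ) (ip P Q) = ip Q P := by
  classical
  rw [ip_eq (S := P.support ∪ Q.support) (P := P) Finset.subset_union_left,
    ip_eq (S := P.support ∪ Q.support) (P := Q) Finset.subset_union_right, map_sum]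
  refine Finset.sum_congr rfl fun α _ => ?_
  rw [map_mul, map_mul, Complex.conj_conj]
  have h : (starRingEnd ℂ) (wt α) = wt α := by
    unfold wt
    exact Complex.conj_natCast _
  rw [h]
  ring

theorem ip_add_right (P Q Q' : MvPolynomial (Fin m) ℂ) : ip P (Q + Q') = ip P Q + ip P Q' := by
  rw [← ip_conj, ip_add_left, map_add, ip_conj, ip_conj]

theorem ip_C_right (c : ℂ) (P Q : MvPolynomial (Fin m) ℂ) :
    ip P (C c * Q) = (starRingEnd ℂ) c * ip P Q := by
  rw [← ip_conj, ip_C_left, map_mul, ip_conj]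

end Pool.Agent.Y727.PT
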