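import Pool.Agent.Y727.PT.Base

/-! # Pate's inequality: assembly -/

set_option autoImplicit false

namespace Pool.Agent.Y727.PT

open MvPolynomial
open scoped ComplexOrder

theorem lf_one {m : ℕ} (u : Fin (m + 2) → ℂ) (h : ∀ j, 0 < j → u j = 0) :
    lf u = C (u 0) * X 0 := by
  unfold lf
  rw [Finset.sum_eq_single 0]
  · intro j _ hj
    rw [h j (Fin.pos_of_ne_zero hj), C_0, zero_mul]
  · intro h0
    exact absurd (Finset.mem_univ _) h0

theorem lf_two {m : ℕ} (u : Fin (m + 2) → ℂ) (h : ∀ j, 1 < j → u j = 0) :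
    lf u = C (u 0) * X 0 + C (u 1) * X 1 := by
  unfold lf
  rw [Fin.sum_univ_succ, Fin.sum_univ_succ, Finset.sum_eq_zero, add_zero]
  · rfl
  · intro j _
    rw [h, C_0, zero_mul]
    rw [Fin.lt_def]
    simp

theorem pate (hgram : S_gram) (hkey : S_key) (hchol : S_chol) (n : ℕ)
    (A : Matrix (Fin (n + 2)) (Fin (n + 2)) ℂ) (hA : A.PosSemidef) :
    (A 0 0 * (A.submatrix (Fin.succAbove (0 : Fin (n+2))) (Fin.succAbove (0 : Fin (n+2)))).permanent
        - A 0 1 * (A.submatrix (Fin.succAbove (0 : Fin (n+2))) (Fin.succAbove (1 : Fin (n+2)))).permanent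
        - A 1 0 * (A.submatrix (Fin.succAbove (1 : Fin (n+2))) (Fin.succAbove (0 : Fin (n+2)))).permanent
        + A 1 1 * (A.submatrix (Fin.succAbove (1 : Fin (n+2))) (Fin.succAbove (1 : Fin (n+2)))).permanent).re
      ≤ 2 * (A.permanent).re := by
  obtain ⟨B, hAB, hB⟩ := hchol (n + 2) A hA
  set a : ℂ := B 0 0 with ha
  set β : ℂ := B 1 0 with hβ
  set γ : ℂ := B 1 1 with hγ
  have hl0 : lf (B 0) = C a * X 0 := lf_one (B 0) fun j hj => hB 0 j hj
  have hl1 : lf (B 1) = C β * X 0 + C γ * X 1 := lf_two (B 1) fun j hj => hB 1 j hj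
  set R : MvPolynomial (Fin (n + 2)) ℂ := ∏ k : Fin n, lf (B k.succ.succ) with hR
  -- entries
  have h00 : A 0 0 = a * (starRingEnd ℂ) a := by
    rw [hAB, Matrix.mul_apply, Finset.sum_eq_single 0]
    · rfl
    · intro j _ hj
      rw [hB 0 j (Fin.pos_of_ne_zero hj), zero_mul]
    · intro h0; exact absurd (Finset.mem_univ _) h0
  have h01 : A 0 1 = a * (starRingEnd ℂ) β := by
    rw [hAB, Matrix.mul_apply, Finset.sum_eq_single 0]
    · rfl
    · intro j _ hj
      rw [hB 0 j (Fin.pos_of_ne_zero hj), zero_mul]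
    · intro h0; exact absurd (Finset.mem_univ _) h0
  have h10 : A 1 0 = β * (starRingEnd ℂ) a := by
    rw [hAB, Matrix.mul_apply, Finset.sum_eq_single 0]
    · rfl
    · intro j _ hj
      rw [Matrix.conjTranspose_apply, hB 0 j (Fin.pos_of_ne_zero hj), star_zero, mul_zero]
    · intro h0; exact absurd (Finset.mem_univ _) h0
  have h11 : A 1 1 = β * (starRingEnd ℂ) β + γ * (starRingEnd ℂ) γ := by
    rw [hAB, Matrix.mul_apply, Fin.sum_univ_succ, Fin.sum_univ_succ, Finset.sum_eq_zero, add_zero]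
    · rfl
    · intro j _
      rw [hB 1 _ (by rw [Fin.lt_def]; simp), zero_mul]
  -- permanents
  have hsub : ∀ i j : Fin (n + 2), (A.submatrix (Fin.succAbove i) (Fin.succAbove j)).permanent =
      ip (∏ t, lf (B (i.succAbove t))) (∏ t, lf (B (j.succAbove t))) := by
    intro i j
    have h := hgram (n + 1) (n + 2) (B.submatrix (Fin.succAbove i) id)
      (B.submatrix (Fin.succAbove j) id)
    have h2 : A.submatrix (Fin.succAbove i) (Fin.succAbove j) =
        (B.submatrix (Fin.succAbove i) id) * (B.submatrix (Fin.succAbove j) id).conjTranspose := by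
      ext s t
      rw [hAB]
      simp [Matrix.mul_apply]
    rw [h2, h]
    rfl
  have hP0 : (∏ t, lf (B ((0 : Fin (n + 2)).succAbove t))) = lf (B 1) * R := by
    rw [Fin.prod_univ_succ]
    rfl
  have hP1 : (∏ t, lf (B ((1 : Fin (n + 2)).succAbove t))) = lf (B 0) * R := by
    rw [Fin.prod_univ_succ]
    congr 1
  have hperA : A.permanent = ip (lf (B 0) * (lf (B 1) * R)) (lf (B 0) * (lf (B 1) * R)) := by
    have h := hgram (n + 2) (n + 2) B B
    rw [← hAB] at h
    rw [h, Fin.prod_univ_succ, Fin.prod_univ_succ]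
    rfl
  rw [hsub, hsub, hsub, hsub, hP0, hP1, hperA, hl0, hl1, h00, h01, h10, h11]
  have e1 : (C β * X 0 + C γ * X 1) * R = C β * (X 0 * R) + C γ * (X 1 * R) := by ring
  have e0 : C a * X 0 * R = C a * (X 0 * R) := by ring
  have e2 : C a * X 0 * ((C β * X 0 + C γ * X 1) * R) =
      C a * (X 0 * ((C β * X 0 + C γ * X 1) * R)) := by ring
  rw [e2, e1, e0]
  rw [← e1]
  set I00 := ip (X 0 * R) (X 0 * R) with hI00
  set I11 := ip (X 1 * R) (X 1 * R) with hI11
  have hkey' := hkey n R β γ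
  rw [← hI00, ← hI11] at hkey'
  set T := ip (X 0 * ((C β * X 0 + C γ * X 1) * R)) (X 0 * ((C β * X 0 + C γ * X 1) * R)) with hT
  rw [e1]
  simp only [ip_add_left, ip_add_right, ip_C_left, ip_C_right]
  rw [← hI00, ← hI11]
  have hT' : ip (X 0 * (C β * (X 0 * R) + C γ * (X 1 * R)))
      (X 0 * (C β * (X 0 * R) + C γ * (X 1 * R))) = T := by rw [hT, e1]
  rw [hT']
  have h1 : a * (starRingEnd ℂ) a = ((‖a‖ ^ 2 : ℝ) : ℂ) := by
    rw [Complex.mul_conj, Complex.normSq_eq_norm_sq]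
  have h2 : γ * (starRingEnd ℂ) γ = ((‖γ‖ ^ 2 : ℝ) : ℂ) := by
    rw [Complex.mul_conj, Complex.normSq_eq_norm_sq]
  have hr : (starRingEnd ℂ) a * (a * T) = ((‖a‖ ^ 2 : ℝ) : ℂ) * T := by
    rw [← h1]; ring
  rw [hr, Complex.re_ofReal_mul]
  have hl : ∀ x y z : ℂ, a * (starRingEnd ℂ) a *
        ((starRingEnd ℂ) β * (β * I00 + γ * x) + (starRingEnd ℂ) γ * (β * y + γ * I11)) -
      a * (starRingEnd ℂ) β * ((starRingEnd ℂ) a * (β * I00 + γ * x)) -
      β * (starRingEnd ℂ) a * ((starRingEnd ℂ) β * (a * I00) + (starRingEnd ℂ) γ * (a * y)) +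
      (β * (starRingEnd ℂ) β + γ * (starRingEnd ℂ) γ) * ((starRingEnd ℂ) a * (a * I00)) =
      ((‖a‖ ^ 2 : ℝ) : ℂ) * (((‖γ‖ ^ 2 : ℝ) : ℂ) * (I00 + I11)) := by
    intro x y z
    rw [← h1, ← h2]
    ring
  rw [hl _ _ 0, Complex.re_ofReal_mul, Complex.re_ofReal_mul, Complex.add_re]
  have h3 := mul_le_mul_of_nonneg_left hkey' (sq_nonneg ‖a‖)
  linarith

end Pool.Agent.Y727.PT
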