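import Mathlib

/-!
# Pate's permanental inequality: exact statements of the steps

`ip` is the Fischer inner product on polynomials; `S_gram`: the permanent of `U Wᴴ` is the Fischer
inner product of products of linear forms; `S_key`: the inequality in two variables (the others are
parameters); `S_chol`: Cholesky factorisation of positive semidefinite matrices.
-/

set_option autoImplicit false

namespace Pool.Agent.Y727.PT

open MvPolynomial
open scoped ComplexOrder

/-- The linear form `∑ u_j X_j`. -/
noncomputable def lf {m : ℕ} (u : Fin m → ℂ) : MvPolynomial (Fin m) ℂ := ∑ j, C (u j) * X j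

/-- The Fischer inner product `∑ α! P_α conj(Q_α)`. -/
noncomputable def ip {m : ℕ} (P Q : MvPolynomial (Fin m) ℂ) : ℂ :=
  ∑ α ∈ P.support, ((∏ j, (α j).factorial : ℕ) : ℂ) * coeff α P * (starRingEnd ℂ) (coeff α Q)

/-- The permanent of a product is a Fischer inner product of products of linear forms. -/
def S_gram : Prop := ∀ (N m : ℕ) (U W : Matrix (Fin N) (Fin m) ℂ),
  (U * W.conjTranspose).permanent = ip (∏ t, lf (U t)) (∏ t, lf (W t))

/-- The key inequality. -/
def S_key : Prop := ∀ (m : ℕ) (R : MvPolynomial (Fin (m + 2)) ℂ) (β γ : ℂ),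
  ‖γ‖ ^ 2 * ((ip (X 0 * R) (X 0 * R)).re + (ip (X 1 * R) (X 1 * R)).re) ≤
    2 * (ip (X 0 * ((C β * X 0 + C γ * X 1) * R)) (X 0 * ((C β * X 0 + C γ * X 1) * R))).re

/-- Cholesky factorisation. -/
def S_chol : Prop := ∀ (n : ℕ) (A : Matrix (Fin n) (Fin n) ℂ), A.PosSemidef →
  ∃ B : Matrix (Fin n) (Fin n) ℂ, A = B * B.conjTranspose ∧ ∀ i j, i < j → B i j = 0

end Pool.Agent.Y727.PT
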